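import Pool.Agent.helper10.EGH.Spec

/-!
# p2e: FLH: the flux theorem by heights (helper77)
-/

set_option autoImplicit false

open Complex Metric Set Filter Topology MeasureTheory
open WP (it)

noncomputable section

namespace EGH

open scoped Classical in
theorem FLH (hEGM : EGM_stmt) (hIDX : EG.IDX_stmt) (hPQE : EG.PQE_stmt) : FLH_stmt := by
  intro f hf
  obtain ⟨C, hC, hI⟩ := hIDX f hf
  refine ⟨max 1 C, lt_of_lt_of_le one_pos (le_max_left _ _), ?_⟩
  intro q m γ κ h S O N P DP ι Q c L B₁ K hq hch hγ hw hBx hFS hFP hcl hQ hdie hB₁ hK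
  have hfd : Differentiable ℂ (it f q) := by
    have : it f q = (fun z : ℂ => f.eval z)^[q] := rfl
    rw [this]
    exact f.differentiable.iterate q
  have hfin : {z : ℂ | it f q z = z}.Finite := by
    refine (EG.Pq f q).roots.toFinset.finite_toSet.subset fun p hp => ?_
    exact ((hPQE f q hf hq).2.2.2 p).2 hp
  have hBs : {p : ℂ | p ∈ closure O ∧ it f q p = p ∧ 1 ≤ ‖deriv (it f q) p‖ ∧ deriv (it f q) p ≠ 1} ⊆ {z : ℂ | it f q z = z} :=
    fun p hp => hp.2.1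
  obtain ⟨B, hB⟩ : ∃ B : Finset ℂ, ∀ p, p ∈ B ↔ p ∈ closure O ∧ it f q p = p ∧ 1 ≤ ‖deriv (it f q) p‖ ∧ deriv (it f q) p ≠ 1 := by
    refine ⟨(hfin.subset hBs).toFinset, fun p => ?_⟩
    rw [Set.Finite.mem_toFinset]
    exact Iff.rfl
  have h1 := hEGM κ h S O N P DP hBx (it f q) ι Q c L B B₁ K hfd hfin hFS hFP hQ hdie hB hB₁ hK
  have h2 := hI q m γ B hq hch hγ hw fun p hp => ⟨((hB p).1 hp).2.1, hcl p ((hB p).1 hp).1 ((hB p).1 hp).2.1, ((hB p).1 hp).2.2.2⟩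
  have hpi := Real.pi_pos
  obtain ⟨a, ha⟩ : ∃ a, a = ‖V3.chi m γ (fun z => 1 / (it f q z - z))‖ := ⟨_, rfl⟩
  obtain ⟨b, hb⟩ : ∃ b, b = ‖V3.chi m γ (fun z => (deriv (it f q) z - 1) / (it f q z - z))‖ := ⟨_, rfl⟩
  rw [← ha, ← hb] at h2 ⊢
  have ha0 : 0 ≤ a := by rw [ha]; exact norm_nonneg _
  have hb0 : 0 ≤ b := by rw [hb]; exact norm_nonneg _
  rw [le_div_iff₀ (by positivity)] at h2
  have h3 : a + C * b ≤ max 1 C * (a + b) := by
    have h4 : a ≤ max 1 C * a := le_mul_of_one_le_left ha0 (le_max_left _ _)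
    have h5 : C * b ≤ max 1 C * b := mul_le_mul_of_nonneg_right (le_max_right _ _) hb0
    linarith
  linarith

end EGH
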